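import Pool.Agent.Helper45.AM.GoalsB
import Pool.Agent.Helper15.AM.GoalsG

/-!
# Project AM: `B_1`, minimal representatives.
-/

set_option autoImplicit false

open LaurentPolynomial Pool.Agent.Helper15.RA Pool.Agent.Helper45.AM Pool.Agent.Helper15.AM

noncomputable section

namespace Pool.Agent.Helper56.AM

section cox

variable {S W : Type} [Group W] {M : CoxeterMatrix S} {cs : CoxeterSystem M W}

theorem parMono {P Q : Set S} (h : P ⊆ Q) : par cs P ≤ par cs Q :=
  Subgroup.closure_mono (Set.image_mono h)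

theorem xrMono {P Q : Set S} (h : P ⊆ Q) {x : W} (hx : XR cs Q x) : XR cs P x :=
  fun i hi => hx i (h hi)

theorem xlMono {P Q : Set S} (h : P ⊆ Q) {x : W} (hx : XL cs Q x) : XL cs P x :=
  fun i hi => hx i (h hi)

theorem xrInv {P : Set S} {x : W} (hx : XR cs P x) : XL cs P x⁻¹ := by
  intro i hi
  have h := hx i hi
  have h1 : cs.simple i * x⁻¹ = (x * cs.simple i)⁻¹ := by rw [mul_inv_rev, cs.inv_simple]
  rw [h1, cs.length_inv, cs.length_inv, h]

theorem xlInv {P : Set S} {x : W} (hx : XL cs P x) : XR cs P x⁻¹ := by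
  intro i hi
  have h := hx i hi
  have h1 : x⁻¹ * cs.simple i = (cs.simple i * x)⁻¹ := by rw [mul_inv_rev, cs.inv_simple]
  rw [h1, cs.length_inv, cs.length_inv, h]

theorem descOr (cs : CoxeterSystem M W) (w : W) (i : S) :
    cs.length (w * cs.simple i) = cs.length w + 1 ∨ cs.length (w * cs.simple i) < cs.length w := by
  rcases cs.length_mul_simple w i with h | h
  · left; exact h
  · right; omega

theorem existsDesc (cs : CoxeterSystem M W) {w : W} (hw : w ≠ 1) :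
    ∃ i, cs.length (w * cs.simple i) < cs.length w := by
  obtain ⟨i, hi⟩ := cs.exists_rightDescent_of_ne_one hw
  exact ⟨i, hi⟩

theorem notXR {P : Set S} {x : W} (h : ¬ XR cs P x) :
    ∃ i ∈ P, cs.length (x * cs.simple i) < cs.length x := by
  by_contra hn
  push Not at hn
  apply h
  intro i hi
  rcases descOr cs x i with h1 | h1
  · exact h1
  · exact absurd h1 (not_lt.2 (hn i hi))

end cox

section ac

variable {S W H : Type} [Group W] [Ring H] [Algebra ℤ[T;T⁻¹] H] (X : AC S W H)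

theorem kSub (b : Bool) : X.K ⊆ X.F b := by
  cases b
  · exact Set.inter_subset_right
  · exact Set.inter_subset_left

theorem memK {b : Bool} {i : S} (h : i ∈ X.F b) (h' : i ∈ X.F (!b)) : i ∈ X.K := by
  cases b
  · exact ⟨h', h⟩
  · exact ⟨h, h'⟩

theorem notBoth (hD : G_D) {b : Bool} {i j : S} (hi : i ∈ X.F b) (hi' : i ∉ X.F (!b)) (hj : j ∈ X.F (!b))
    (hj' : j ∉ X.F b) {w : W} (h1 : X.cs.length (w * X.cs.simple i) < X.cs.length w)
    (h2 : X.cs.length (w * X.cs.simple j) < X.cs.length w) : False := by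
  have hij : i ≠ j := by
    rintro rfl
    exact hj' hi
  exact ((hD S W X.M X.cs i j hij).2.1 w h1 h2).1 (X.inf b i hi hi' j hj hj')

theorem c4 (hD : G_D) (x : W) (hx : XR X.cs X.K x) : ∃ b, XR X.cs (X.F b) x := by
  by_contra hn
  push Not at hn
  obtain ⟨i, hi, hi1⟩ := notXR (hn true)
  obtain ⟨j, hj, hj1⟩ := notXR (hn false)
  have hi' : i ∉ X.F false := by
    intro h
    have := hx i ⟨hi, h⟩
    omega
  have hj' : j ∉ X.F true := by
    intro h
    have := hx j ⟨h, hj⟩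
    omega
  exact notBoth X hD (b := true) hi hi' hj hj' hi1 hj1

theorem c5 (b : Bool) (x : W) (h1 : XR X.cs (X.F b) x) (h2 : XR X.cs (X.F (!b)) x) : x = 1 := by
  by_contra hx
  obtain ⟨i, hi⟩ := existsDesc X.cs hx
  obtain ⟨c, hc⟩ := X.cover i
  have h3 : c = b ∨ c = !b := by cases b <;> cases c <;> simp
  rcases h3 with rfl | rfl
  · have := h1 i hc
    omega
  · have := h2 i hc
    omega

theorem c8 (hPB : G_PB) {a : W} (h1 : XR X.cs X.K a) (h2 : a ∈ par X.cs X.K) : a = 1 := by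
  by_contra ha
  obtain ⟨i, hi⟩ := existsDesc X.cs ha
  have h3 := ((hPB S W X.M X.cs).2 X.K).2.1 a h2 i hi
  have h4 := h1 i h3
  omega

theorem c6 (hPA : G_PA) (b : Bool) (x : W) (hx : XR X.cs (X.F b) x) (hx1 : x ≠ 1) :
    ∃ x' a, x = x' * a ∧ XR X.cs (X.F (!b)) x' ∧ a ∈ par X.cs (X.F (!b)) ∧
    XR X.cs X.K a ∧ a ≠ 1 ∧ X.cs.length x = X.cs.length x' + X.cs.length a := by
  obtain ⟨x', a, ha, hx', e⟩ := (hPA S W X.M X.cs (X.F (!b))).2.1 x
  have hadd := (hPA S W X.M X.cs (X.F (!b))).2.2 x' hx'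
  refine ⟨x', a, e, hx', ha, ?_, ?_, ?_⟩
  · intro i hi
    have h1 := hx i (kSub X b hi)
    have h2 : a * X.cs.simple i ∈ par X.cs (X.F (!b)) :=
      mul_mem ha (Subgroup.subset_closure ⟨i, kSub X (!b) hi, rfl⟩)
    have h3 := hadd _ h2
    have h4 := hadd _ ha
    rw [← mul_assoc, ← e] at h3
    rw [← e] at h4
    omega
  · rintro rfl
    rw [mul_one] at e
    subst e
    exact hx1 (c5 X b x hx hx')
  · rw [← hadd a ha, ← e]

theorem c7 (hPA : G_PA) (hPB : G_PB) (hD : G_D) (b : Bool) (x' a : W) (hx' : XR X.cs (X.F (!b)) x')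
    (ha : a ∈ par X.cs (X.F (!b))) (hK : XR X.cs X.K a) (ha1 : a ≠ 1) : XR X.cs (X.F b) (x' * a) := by
  have hadd := (hPA S W X.M X.cs (X.F (!b))).2.2 x' hx'
  intro j hj
  rcases descOr X.cs (x' * a) j with h | h
  · exact h
  exfalso
  have h4 := hadd _ ha
  by_cases hj' : j ∈ X.F (!b)
  · have h1 := hK j (memK X hj hj')
    have h2 : a * X.cs.simple j ∈ par X.cs (X.F (!b)) :=
      mul_mem ha (Subgroup.subset_closure ⟨j, hj', rfl⟩)
    have h3 := hadd _ h2
    rw [← mul_assoc] at h3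
    omega
  · obtain ⟨i, hi⟩ := existsDesc X.cs ha1
    have hi1 := ((hPB S W X.M X.cs).2 (X.F (!b))).2.1 a ha i hi
    have hi2 : i ∉ X.F b := by
      intro h5
      have := hK i (memK X h5 hi1)
      omega
    have h2 : a * X.cs.simple i ∈ par X.cs (X.F (!b)) :=
      mul_mem ha (Subgroup.subset_closure ⟨i, hi1, rfl⟩)
    have h3 := hadd _ h2
    rw [← mul_assoc] at h3
    exact notBoth X hD hj hj' hi1 hi2 h (by omega)

end ac

theorem h_b_1 : G_PA → G_PB → G_PC → G_D → B_1 := by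
  intro hPA hPB hPC hD S W H _ _ _ X
  refine ⟨fun b => parMono (kSub X b), fun b g h1 h2 => ?_,
    fun b x => ⟨xrMono (kSub X b), xlMono (kSub X b)⟩, c4 X hD, c5 X, c6 X hPA, c7 X hPA hPB hD, ?_, ?_,
    ?_, ?_, ?_, fun b x => ⟨xrInv, xlInv⟩⟩
  · have h3 : g ∈ par X.cs (X.F b) ⊓ par X.cs (X.F (!b)) := ⟨h1, h2⟩
    rw [((hPB S W X.M X.cs).2 (X.F b)).2.2.2.2.2 (X.F (!b))] at h3
    exact parMono (fun i hi => memK X hi.1 hi.2) h3
  · rintro a (h1 | h1) h2
    · exact c8 X hPB h1 h2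
    · exact inv_eq_one.1 (c8 X hPB (xlInv h1) (inv_mem h2))
  · intro y hy
    obtain ⟨b, hb⟩ := c4 X hD y⁻¹ (xlInv hy)
    exact ⟨b, by simpa using xrInv hb⟩
  · intro b y h1 h2
    exact inv_eq_one.1 (c5 X b y⁻¹ (xlInv h1) (xlInv h2))
  · intro b y hy hy1
    obtain ⟨x', a, e, h1, h2, h3, h4, h5⟩ := c6 X hPA b y⁻¹ (xlInv hy) (by simpa using hy1)
    refine ⟨a⁻¹, x'⁻¹, ?_, xrInv h1, inv_mem h2, xrInv h3, by simpa using h4, ?_⟩
    · rw [← mul_inv_rev, ← e, inv_inv]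
    · rw [X.cs.length_inv, X.cs.length_inv, ← X.cs.length_inv y, h5, add_comm]
  · intro b y' a h1 h2 h3 h4
    have h5 := c7 X hPA hPB hD b y'⁻¹ a⁻¹ (xlInv h1) (inv_mem h2) (xlInv h3) (by simpa using h4)
    have h6 := xrInv h5
    rwa [mul_inv_rev, inv_inv, inv_inv] at h6

end Pool.Agent.Helper56.AM
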