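import Pool.Agent.Helper15.AM.GoalsG

/-!
# Packet AM-GPS: the Coxeter group of `I'` is the parabolic subgroup of `range e`
-/

set_option autoImplicit false

open LaurentPolynomial Pool.Agent.Helper15.RA Pool.Agent.Helper45.AM Pool.Agent.Helper15.AM

noncomputable section

namespace Pool.Agent.Helper56.AM

variable {S W : Type} [Group W] {M : CoxeterMatrix S}

theorem iotaE_simple (cs : CoxeterSystem M W) {I' : Type} (e : I' → S)
    (he : Function.Injective e) (i : I') :
    iotaE cs e he ((subE M e he).toCoxeterSystem.simple i) = cs.simple (e i) :=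
  (subE M e he).toCoxeterSystem.lift_apply_simple (liftE cs e he) i

theorem iotaE_wordProd (cs : CoxeterSystem M W) {I' : Type} (e : I' → S)
    (he : Function.Injective e) (ω : List I') :
    iotaE cs e he ((subE M e he).toCoxeterSystem.wordProd ω) = cs.wordProd (ω.map e) := by
  induction ω with
  | nil => simp
  | cons i ω ih =>
    rw [CoxeterSystem.wordProd_cons, map_mul, ih, iotaE_simple, List.map_cons,
      CoxeterSystem.wordProd_cons]

theorem exists_map_eq {S I' : Type} (e : I' → S) (ω : List S) (h : ∀ i ∈ ω, i ∈ Set.range e) :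
    ∃ ω₁ : List I', ω₁.map e = ω := by
  induction ω with
  | nil => exact ⟨[], rfl⟩
  | cons a ω ih =>
    obtain ⟨ω₁, h1⟩ := ih (fun i hi => h i (List.mem_cons_of_mem _ hi))
    obtain ⟨b, hb⟩ := h a List.mem_cons_self
    exact ⟨b :: ω₁, by rw [List.map_cons, hb, h1]⟩

theorem wordProd_mem_par (cs : CoxeterSystem M W) (P : Set S) (ω : List S) (h : ∀ i ∈ ω, i ∈ P) :
    cs.wordProd ω ∈ par cs P := by
  induction ω with
  | nil => simp [(par cs P).one_mem]
  | cons a ω ih =>
    rw [CoxeterSystem.wordProd_cons]
    refine (par cs P).mul_mem ?_ (ih (fun i hi => h i (List.mem_cons_of_mem _ hi)))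
    exact Subgroup.subset_closure ⟨a, h a List.mem_cons_self, rfl⟩

/-- The image of a reduced word is reduced. -/
theorem isReduced_map (h1 : G_PA) (h2 : G_MT) (cs : CoxeterSystem M W) {I' : Type} (e : I' → S)
    (he : Function.Injective e) (ω : List I')
    (hω : (subE M e he).toCoxeterSystem.IsReduced ω) : cs.IsReduced (ω.map e) := by
  induction ω using List.reverseRecOn with
  | nil => simp [CoxeterSystem.IsReduced]
  | append_singleton ω₀ i ih =>
    have hω₀ : (subE M e he).toCoxeterSystem.IsReduced ω₀ := by
      have := hω.take ω₀.length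
      rwa [List.take_left] at this
    have ih₀ := ih hω₀
    rcases cs.length_mul_simple (cs.wordProd (ω₀.map e)) (e i) with h3 | h3
    · unfold CoxeterSystem.IsReduced
      rw [List.map_append, CoxeterSystem.wordProd_append]
      simp only [List.map_cons, List.map_nil, CoxeterSystem.wordProd_singleton,
        List.length_append, List.length_cons, List.length_nil]
      rw [h3, ih₀.eq]
    · exfalso
      have hmem : cs.wordProd (ω₀.map e) * cs.simple (e i) ∈ par cs (Set.range e) := by
        refine (par cs _).mul_mem ?_ ?_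
        · apply wordProd_mem_par
          intro j hj
          obtain ⟨k, _, hk⟩ := List.mem_map.1 hj
          exact ⟨k, hk⟩
        · exact Subgroup.subset_closure ⟨e i, ⟨i, rfl⟩, rfl⟩
      obtain ⟨ω', hr', hl', hp'⟩ := (h1 S W M cs (Set.range e)).1 _ hmem
      obtain ⟨ω₁, rfl⟩ := exists_map_eq e ω' hl'
      have h4 : cs.wordProd ((ω₁ ++ [i]).map e) = cs.wordProd (ω₀.map e) := by
        rw [List.map_append, CoxeterSystem.wordProd_append, ← hp']
        simp [mul_assoc]
      have h5 : (ω₁.map e).length + 1 = (ω₀.map e).length := by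
        rw [← hr'.eq, ← ih₀.eq, ← hp']
        exact h3
      have h6 : cs.IsReduced ((ω₁ ++ [i]).map e) := by
        unfold CoxeterSystem.IsReduced
        rw [h4, ih₀.eq, ← h5]
        simp
      have h7 := h2 S W M cs I' e he ω₀ (ω₁ ++ [i]) ih₀ h6 h4.symm
      have h8 : (subE M e he).toCoxeterSystem.wordProd (ω₀ ++ [i]) =
          (subE M e he).toCoxeterSystem.wordProd ω₁ := by
        rw [CoxeterSystem.wordProd_append, h7, CoxeterSystem.wordProd_append,
          CoxeterSystem.wordProd_singleton, mul_assoc, CoxeterSystem.simple_mul_simple_self,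
          mul_one]
      have h9 := hω.eq
      rw [h8] at h9
      have h10 := (subE M e he).toCoxeterSystem.length_wordProd_le ω₁
      rw [h9] at h10
      simp only [List.length_map, List.length_append, List.length_cons, List.length_nil] at h5 h10
      omega

/-- GPS. -/
theorem h_gps (h1 : G_PA) (_h2 : G_PB) (h3 : G_MT) : G_PS := by
  intro S W _ M cs I' e he
  have hlen : ∀ g, cs.length (iotaE cs e he g) = (subE M e he).toCoxeterSystem.length g := by
    intro g
    obtain ⟨ω, hω, rfl⟩ := (subE M e he).toCoxeterSystem.exists_isReduced g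
    rw [iotaE_wordProd, (isReduced_map h1 h3 cs e he ω hω).eq, hω.eq, List.length_map]
  have hinj : Function.Injective (iotaE cs e he) := by
    rw [injective_iff_map_eq_one]
    intro g hg
    have h4 := hlen g
    rw [hg, CoxeterSystem.length_one] at h4
    exact ((subE M e he).toCoxeterSystem.length_eq_zero_iff).1 h4.symm
  refine ⟨hlen, hinj, ?_, ?_⟩
  · rw [MonoidHom.range_eq_map, ← (subE M e he).toCoxeterSystem.subgroup_closure_range_simple,
      MonoidHom.map_closure]
    unfold par
    congr 1
    ext w
    constructor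
    · rintro ⟨_, ⟨i, rfl⟩, rfl⟩
      exact ⟨e i, ⟨i, rfl⟩, (iotaE_simple cs e he i).symm⟩
    · rintro ⟨_, ⟨i, rfl⟩, rfl⟩
      exact ⟨_, ⟨i, rfl⟩, iotaE_simple cs e he i⟩
  · intro L hL
    refine ⟨?_, ?_⟩
    · intro g hg
      apply hL.pos
      intro h4
      apply hg
      apply hinj
      rw [h4, map_one]
    · intro g g' hgg
      show L (iotaE cs e he (g * g')) = L (iotaE cs e he g) + L (iotaE cs e he g')
      rw [map_mul]
      apply hL.add
      rw [← map_mul, hlen, hlen, hlen]
      exact hgg

end Pool.Agent.Helper56.AM
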